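import Pool.Agent.W_MP_43e0cc_an.Proof

open scoped ENNReal

open Pool.Agent.W_MP_43e0cc_an

namespace Pool.Agent.Results.MP_43e0cc_an.JordanShift

/-- For `𝕜 = ℝ` or `ℂ`, every `1 ≤ p < ∞` and every finite dimensional normed space `X` over `𝕜`
with `dim X ≥ 2` (for example `X = 𝕜^d`, `d ≥ 2`, with its Euclidean norm), there is a sequence
`S` of invertible linear maps of `X`, with uniformly bounded norms and inverses, such that the shift
operator `σ_S` on `ℓ_p(X)` is not linearly conjugate to any finite product of weighted backward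
shifts on `ℓ_p(𝕜)`. -/
theorem result (𝕜 : Type) [RCLike 𝕜] (p : ℝ≥0∞) [Fact (1 ≤ p)] (hp : p ≠ ∞)
    (X : Type) [NormedAddCommGroup X] [NormedSpace 𝕜 X] [FiniteDimensional 𝕜 X]
    (hX : 2 ≤ Module.finrank 𝕜 X) :
    ∃ S : BddInvSeq 𝕜 X, ∀ (k : ℕ) (w : Fin k → Weight 𝕜),
      ¬ LinConj (shiftOp p hp S) (prodShift p hp w) :=
  main 𝕜 p hp X hX

end Pool.Agent.Results.MP_43e0cc_an.JordanShift
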